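import Pool.Agent.Q250.OddSub

/-!
MP_007251_co, Q1: `m(n) = 2 ⌈n/6⌉` for every `n ≥ 2`.
-/

set_option autoImplicit false

namespace Pool.Agent.Results.MP_007251_co.CographMinimum

open Finset

open Classical in
/-- `S` induces an odd subgraph of `G`: every vertex of `S` has an odd number of neighbours
in `S`. -/
def IsOddSet {V : Type} (G : SimpleGraph V) (S : Finset V) : Prop :=
  ∀ v ∈ S, Odd (S.filter (fun u => G.Adj v u)).card

/-- the largest number of vertices of an odd induced subgraph -/
noncomputable def mos {n : ℕ} (G : SimpleGraph (Fin n)) : ℕ :=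
  sSup {k | ∃ S : Finset (Fin n), IsOddSet G S ∧ S.card = k}

/-- no induced path on four vertices -/
def IsCograph {V : Type} (G : SimpleGraph V) : Prop :=
  IsEmpty (SimpleGraph.pathGraph 4 ↪g G)

/-- `m(n)` is the least element of this set -/
def Values (n : ℕ) : Set ℕ :=
  {k | ∃ G : SimpleGraph (Fin n), IsCograph G ∧ (∀ v, ∃ u, G.Adj v u) ∧ mos G = k}

theorem p4free_of_cograph {n : ℕ} (G : SimpleGraph (Fin n)) (h : IsCograph G) :
    Q250.OddSub.P4free G univ := by
  intro a _ b _ c _ d _ ⟨hab, hbc, hcd, hac, hbd, had⟩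
  have nab : a ≠ b := hab.ne
  have nbc : b ≠ c := hbc.ne
  have ncd : c ≠ d := hcd.ne
  have nac : a ≠ c := by rintro rfl; exact had hcd
  have nbd : b ≠ d := by rintro rfl; exact had hab
  have nad : a ≠ d := by rintro rfl; exact hac hcd.symm
  apply h.false
  refine ⟨⟨![a, b, c, d], ?_⟩, ?_⟩
  · intro i j hij
    fin_cases i <;> fin_cases j <;> simp_all
  · intro i j
    have hac' : ¬ G.Adj c a := fun h => hac h.symm
    have hbd' : ¬ G.Adj d b := fun h => hbd h.symm
    have had' : ¬ G.Adj d a := fun h => had h.symm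
    change G.Adj (![a, b, c, d] i) (![a, b, c, d] j) ↔ _
    fin_cases i <;> fin_cases j <;>
      simp [SimpleGraph.pathGraph_adj, hab, hbc, hcd, hac, hbd, had, hab.symm, hbc.symm, hcd.symm,
        hac', hbd', had']

theorem bdd {n : ℕ} (G : SimpleGraph (Fin n)) :
    BddAbove {k | ∃ S : Finset (Fin n), IsOddSet G S ∧ S.card = k} := by
  refine ⟨n, ?_⟩
  rintro k ⟨S, _, rfl⟩
  have := Finset.card_le_univ S
  simpa using this

theorem lower_bound {n : ℕ} (G : SimpleGraph (Fin n)) (h : IsCograph G)
    (hI : ∀ v, ∃ u, G.Adj v u) : 2 * ((n + 5) / 6) ≤ mos G := by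
  classical
  obtain ⟨S, _, oS, sS⟩ := Q250.OddSub.lower G n univ (by simp) (p4free_of_cograph G h)
    (fun v _ => by
      obtain ⟨u, hu⟩ := hI v
      exact ⟨u, mem_univ u, hu⟩)
  have ev := oS.even_card
  have hodd : IsOddSet G S := by
    intro v hv
    rw [Nat.odd_iff]
    have := oS v hv
    unfold Q250.OddSub.dg at this
    exact this
  have h1 : S.card ≤ mos G := le_csSup (bdd G) ⟨S, hodd, rfl⟩
  have h2 : (univ : Finset (Fin n)).card = n := by simp
  rw [h2] at sS
  omega

/-- block of the vertex `i` in the extremal graph -/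
def blk (n i : ℕ) : ℕ := if n % 6 = 1 ∧ i + 2 = n then n / 6 else i / 6

/-- the extremal graph: a disjoint union of complete tripartite graphs with classes of size at
most two -/
def ext (n : ℕ) : SimpleGraph (Fin n) where
  Adj i j := blk n i = blk n j ∧ (i : ℕ) % 3 ≠ (j : ℕ) % 3
  symm := ⟨fun _ _ h => ⟨h.1.symm, h.2.symm⟩⟩
  loopless := ⟨fun _ h => h.2 rfl⟩

theorem ext_cograph (n : ℕ) : IsCograph (ext n) := by
  refine ⟨fun f => ?_⟩
  have key : ∀ i j : Fin 4, (ext n).Adj (f i) (f j) ↔ (SimpleGraph.pathGraph 4).Adj i j :=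
    fun i j => f.map_rel_iff
  have a01 := (key 0 1).2 (by simp [SimpleGraph.pathGraph_adj])
  have a12 := (key 1 2).2 (by simp [SimpleGraph.pathGraph_adj])
  have a23 := (key 2 3).2 (by simp [SimpleGraph.pathGraph_adj])
  have a02 : ¬ (ext n).Adj (f 0) (f 2) := by
    rw [key]; simp [SimpleGraph.pathGraph_adj]
  have a13 : ¬ (ext n).Adj (f 1) (f 3) := by
    rw [key]; simp [SimpleGraph.pathGraph_adj]
  have a03 : ¬ (ext n).Adj (f 0) (f 3) := by
    rw [key]; simp [SimpleGraph.pathGraph_adj]
  simp only [ext] at a01 a12 a23 a02 a13 a03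
  omega

theorem ext_nonisolated (n : ℕ) (hn : 2 ≤ n) (v : Fin n) : ∃ u, (ext n).Adj v u := by
  have hv := v.isLt
  by_cases h1 : (v : ℕ) + 1 < n ∧ blk n v = blk n (v + 1)
  · refine ⟨⟨v + 1, h1.1⟩, h1.2, ?_⟩
    change (v : ℕ) % 3 ≠ ((v : ℕ) + 1) % 3
    omega
  · have h2 : 1 ≤ (v : ℕ) ∧ blk n v = blk n (v - 1) := by
      unfold blk at h1 ⊢
      split_ifs at h1 ⊢ <;> omega
    refine ⟨⟨v - 1, by omega⟩, h2.2, ?_⟩
    change (v : ℕ) % 3 ≠ ((v : ℕ) - 1) % 3
    omega

theorem ext_upper (n : ℕ) (hn : 2 ≤ n) (S : Finset (Fin n)) (hS : IsOddSet (ext n) S) :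
    S.card ≤ 2 * ((n + 5) / 6) := by
  classical
  have hmap : ∀ a ∈ S, blk n a ∈ Finset.range ((n + 5) / 6) := by
    intro a _
    have ha := a.isLt
    rw [Finset.mem_range]
    unfold blk
    split_ifs <;> omega
  have h := Finset.card_le_mul_card_image_of_maps_to hmap 2 (by
    intro β _
    -- the three classes of the block
    set t : ℕ → ℕ := fun r =>
      (S.filter (fun u : Fin n => blk n u = β ∧ (u : ℕ) % 3 = r)).card with ht
    have t2 : ∀ r, t r ≤ 2 := by
      intro r
      have := Finset.card_le_card_of_injOn (s := S.filter (fun u : Fin n => blk n u = β ∧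
        (u : ℕ) % 3 = r)) (t := Finset.range 2) (fun u : Fin n => ((u : ℕ) / 3) % 2) (by
          intro u _
          simp only [Finset.coe_range, Set.mem_Iio]
          omega) (by
          intro u hu w hw huw
          simp only [Finset.coe_filter, Set.mem_ofPred_eq] at hu hw
          have h1 := hu.2.1
          have h2 := hw.2.1
          have h3 := hu.2.2
          have h4 := hw.2.2
          have h5 : ((u : ℕ) / 3) % 2 = ((w : ℕ) / 3) % 2 := huw
          have h6 := u.isLt
          have h7 := w.isLt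
          apply Fin.ext
          unfold blk at h1 h2
          split_ifs at h1 h2 <;> omega)
      simpa using this
    have hsum : (S.filter (fun a : Fin n => blk n a = β)).card = t 0 + t 1 + t 2 := by
      rw [ht]
      simp only
      rw [← Finset.card_union_of_disjoint, ← Finset.card_union_of_disjoint]
      · congr 1
        ext u
        simp only [Finset.mem_filter, Finset.mem_union]
        have : (u : ℕ) % 3 = 0 ∨ (u : ℕ) % 3 = 1 ∨ (u : ℕ) % 3 = 2 := by omega
        tauto
      · rw [Finset.disjoint_left]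
        intro u h1 h2
        simp only [Finset.mem_filter, Finset.mem_union] at h1 h2
        omega
      · rw [Finset.disjoint_left]
        intro u h1 h2
        simp only [Finset.mem_filter, Finset.mem_union] at h1 h2
        omega
    have hodd : ∀ r, t r ≠ 0 → ∀ r1 r2, (∀ u : ℕ, u % 3 ≠ r ↔ (u % 3 = r1 ∨ u % 3 = r2)) →
        r1 ≠ r2 → (t r1 + t r2) % 2 = 1 := by
      intro r hr r1 r2 h12 hne
      obtain ⟨v, hv⟩ := Finset.card_pos.1 (Nat.pos_of_ne_zero hr)
      rw [Finset.mem_filter] at hv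
      have hv' := hS v hv.1
      rw [Nat.odd_iff] at hv'
      rw [← hv', ht]
      simp only
      rw [← Finset.card_union_of_disjoint]
      · congr 2
        ext u
        rw [Finset.mem_union, Finset.mem_filter, Finset.mem_filter, Finset.mem_filter]
        have := h12 u
        have hadj : (ext n).Adj v u ↔ β = blk n u ∧ r ≠ (u : ℕ) % 3 := by
          rw [← hv.2.1, ← hv.2.2]; rfl
        rw [hadj]
        constructor
        · rintro (⟨h1, h2, h3⟩ | ⟨h1, h2, h3⟩)
          · exact ⟨h1, h2.symm, fun h => (this.2 (Or.inl h3)) h.symm⟩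
          · exact ⟨h1, h2.symm, fun h => (this.2 (Or.inr h3)) h.symm⟩
        · rintro ⟨h1, h2, h3⟩
          rcases this.1 (fun h => h3 h.symm) with h | h
          · exact Or.inl ⟨h1, h2.symm, h⟩
          · exact Or.inr ⟨h1, h2.symm, h⟩
      · rw [Finset.disjoint_left]
        intro u h1 h2
        simp only [Finset.mem_filter] at h1 h2
        exact hne (h1.2.2.symm.trans h2.2.2)
    have e0 := t2 0
    have e1 := t2 1
    have e2 := t2 2
    have o0 : t 0 ≠ 0 → (t 1 + t 2) % 2 = 1 := fun h =>
      hodd 0 h 1 2 (by intro u; omega) (by omega)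
    have o1 : t 1 ≠ 0 → (t 0 + t 2) % 2 = 1 := fun h =>
      hodd 1 h 0 2 (by intro u; omega) (by omega)
    have o2 : t 2 ≠ 0 → (t 0 + t 1) % 2 = 1 := fun h =>
      hodd 2 h 0 1 (by intro u; omega) (by omega)
    rw [hsum]
    omega)
  rw [Finset.card_range] at h
  exact h

/-- **Q1.** For every `n ≥ 2`, `m(n) = 2 ⌈n/6⌉`. -/
theorem result : ∀ n : ℕ, 2 ≤ n → IsLeast (Values n) (2 * ((n + 5) / 6)) := by
  intro n hn
  constructor
  · refine ⟨ext n, ext_cograph n, ext_nonisolated n hn, ?_⟩
    apply le_antisymm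
    · apply csSup_le
      · exact ⟨0, ∅, fun v hv => absurd hv (Finset.notMem_empty v), rfl⟩
      · rintro k ⟨S, hS, rfl⟩
        exact ext_upper n hn S hS
    · exact lower_bound _ (ext_cograph n) (ext_nonisolated n hn)
  · rintro k ⟨G, hG, hI, rfl⟩
    exact lower_bound G hG hI

end Pool.Agent.Results.MP_007251_co.CographMinimum
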